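import Pool.Agent.L5helper3.FewForms.Red
import Pool.Agent.TH519.HS.Cnt

/-!
# The dimension and the number of the relations in few linear forms
-/

set_option autoImplicit false

namespace Pool.Agent.L5helper3.FewForms

open Filter Module MvPolynomial Pool.Agent.TH519.GL Pool.Agent.TH519.FE Pool.Agent.TH519.HS
open Pool.Agent.H301R2.SSE (QB mem_QB Lt Lt_log)

theorem choose_mono (D m' m : ℕ) (h : m' ≤ m) :
    (m' + D).choose (D + 1) + m ≤ (m + D).choose (D + 1) + m' := by
  induction m, h using Nat.le_induction with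
  | base => exact le_rfl
  | succ m _ ih =>
    have h1 : (m + 1 + D).choose (D + 1) = (m + D).choose D + (m + D).choose (D + 1) := by
      rw [show m + 1 + D = (m + D) + 1 by ring, Nat.choose_succ_succ]
    have h2 : 1 ≤ (m + D).choose D := Nat.choose_pos (by omega)
    omega

theorem card_sym (m D : ℕ) : Fintype.card (Sym (Fin m) (D + 1)) = (m + D).choose (D + 1) := by
  rw [Sym.card_sym_eq_choose, Fintype.card_fin]
  rfl

/-- **Dimension.** -/
theorem dim_le {N m D : ℕ} (hD : 1 ≤ D) (l : Fin N → ℂ) (hl : LinearIndependent QB l)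
    (hl' : ∀ j, l j ∈ Lt) (φ : Fin ((m + D).choose (D + 1) - m + 1) →
      (MvPolynomial (Fin N) QB →ₗ[QB] QB)) :
    ∃ P : MvPolynomial (Fin ((m + D).choose (D + 1) - m + 1)) QB, P ≠ 0 ∧
      ∀ (b : Fin m → Fin N → QB) (F : MvPolynomial (Fin m) QB), F.IsHomogeneous (D + 1) →
        Good0 D l b F → eval (fun k => φ k (sub b F)) P = 0 := by
  classical
  have h1 : ∀ m' : Fin (m + 1), Fintype.card (Sym (Fin m') (D + 1)) <
      ((m + D).choose (D + 1) - m + 1) + m' := by
    intro m'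
    rw [card_sym]
    have := choose_mono D m' m (by omega)
    omega
  choose P hP1 hP2 using fun m' : Fin (m + 1) => dim_exact hD l hl hl' (h1 m') φ
  refine ⟨∏ m', P m', Finset.prod_ne_zero_iff.2 fun m' _ => hP1 m', fun b F hF hG => ?_⟩
  obtain ⟨m', hm', b', F', h2, h3, h4⟩ := exists_essential l m b F hF hG
  rw [map_prod]
  refine Finset.prod_eq_zero (Finset.mem_univ (⟨m', by omega⟩ : Fin (m + 1))) ?_
  rw [← h4]
  exact hP2 ⟨m', by omega⟩ b' F' h2 h3

/-- **Counting.** -/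
theorem count_le {N m D : ℕ} (hD : 1 ≤ D) (l : Fin N → ℂ) (hl : LinearIndependent QB l)
    (hl' : ∀ j, l j ∈ Lt) :
    ∃ κ : ℕ, ∀ H : ℕ, 1 ≤ H →
      Set.Finite {f : MvPolynomial (Fin N) ℤ | (∀ s, |coeff s f| ≤ H) ∧
        ∃ (b : Fin m → Fin N → QB) (F : MvPolynomial (Fin m) QB), F.IsHomogeneous (D + 1) ∧
          Good0 D l b F ∧ MvPolynomial.map (Int.castRingHom QB) f = sub b F} ∧
      Set.ncard {f : MvPolynomial (Fin N) ℤ | (∀ s, |coeff s f| ≤ H) ∧
        ∃ (b : Fin m → Fin N → QB) (F : MvPolynomial (Fin m) QB), F.IsHomogeneous (D + 1) ∧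
          Good0 D l b F ∧ MvPolynomial.map (Int.castRingHom QB) f = sub b F} ≤
      κ * H ^ ((m + D).choose (D + 1) - m) := by
  classical
  let e : Fin (Fintype.card (Sym (Fin N) (D + 1))) ≃ Sym (Fin N) (D + 1) :=
    (Fintype.equivFin _).symm
  set S : Set (Fin (Fintype.card (Sym (Fin N) (D + 1))) → QB) :=
    {x | ∃ (b : Fin m → Fin N → QB) (F : MvPolynomial (Fin m) QB), F.IsHomogeneous (D + 1) ∧
          Good0 D l b F ∧ (fun i => coeff (ex (e i)) (sub b F)) = x} with hS
  obtain ⟨κ, hκ⟩ := count (d := (m + D).choose (D + 1) - m) S (by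
    intro φ
    obtain ⟨P, hP1, hP2⟩ := dim_le (m := m) hD l hl hl' (fun k => (φ k) ∘ₗ
      (LinearMap.pi fun i => lcoeff QB (ex (e i))))
    refine ⟨P, hP1, ?_⟩
    rintro x ⟨b, F, h1, h2, rfl⟩
    exact hP2 b F h1 h2)
  refine ⟨κ, fun H hH => ?_⟩
  set T := {f : MvPolynomial (Fin N) ℤ | (∀ s, |coeff s f| ≤ H) ∧
        ∃ (b : Fin m → Fin N → QB) (F : MvPolynomial (Fin m) QB), F.IsHomogeneous (D + 1) ∧
          Good0 D l b F ∧ MvPolynomial.map (Int.castRingHom QB) f = sub b F} with hT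
  let Θ : MvPolynomial (Fin N) ℤ → (Fin (Fintype.card (Sym (Fin N) (D + 1))) → ℤ) :=
    fun f i => coeff (ex (e i)) f
  have hΘ : Set.InjOn Θ T := by
    rintro f ⟨-, b, F, h1, -, h2⟩ f' ⟨-, b', F', h1', -, h2'⟩ h
    ext t
    by_cases ht : t.degree = D + 1
    · obtain ⟨s, rfl⟩ := exists_ex t ht
      have := congrFun h (e.symm s)
      simp only [Θ, Equiv.apply_symm_apply] at this
      exact this
    · have h3 : ∀ (g : MvPolynomial (Fin N) ℤ) (G : MvPolynomial (Fin N) QB),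
          G.IsHomogeneous (D + 1) → MvPolynomial.map (Int.castRingHom QB) g = G →
          coeff t g = 0 := by
        intro g G hG hgG
        have h4 := hG.coeff_eq_zero ht
        rw [← hgG, coeff_map] at h4
        exact (map_eq_zero_iff _ (RingHom.injective_int (Int.castRingHom QB))).1 h4
      rw [h3 f _ (sub_homogeneous b h1) h2, h3 f' _ (sub_homogeneous b' h1') h2']
  have hfin : (Θ '' T).Finite := by
    have h1 : ((Fintype.piFinset fun _ : Fin (Fintype.card (Sym (Fin N) (D + 1))) =>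
      Finset.Icc (-(H : ℤ)) H : Finset _) : Set (Fin (Fintype.card (Sym (Fin N) (D + 1))) → ℤ)).Finite :=
      Finset.finite_toSet _
    refine h1.subset ?_
    rintro _ ⟨f, hf, rfl⟩
    rw [Finset.mem_coe, Fintype.mem_piFinset]
    intro i
    rw [Finset.mem_Icc, ← abs_le]
    exact hf.1 _
  refine ⟨Set.Finite.of_finite_image hfin hΘ, ?_⟩
  rw [← Set.InjOn.ncard_image hΘ, Set.ncard_eq_toFinset_card _ hfin]
  refine hκ H hH _ ?_
  intro a ha
  rw [Set.Finite.mem_toFinset] at ha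
  obtain ⟨f, ⟨hf1, b, F, h1, h2, h3⟩, rfl⟩ := ha
  refine ⟨fun j => hf1 _, b, F, h1, h2, ?_⟩
  funext i
  rw [← h3, coeff_map]
  rfl

end Pool.Agent.L5helper3.FewForms
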