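import Mathlib

/-!
# Linear algebra
-/

set_option autoImplicit false

namespace Pool.Agent.L5helper3.FewForms

open Module

theorem core {K V S κ : Type*} [Field K] [AddCommGroup V] [Module K V] [Fintype S] [Fintype κ]
    {a : ℕ} (K1 : Submodule K (V × (S → K))) (x : κ → V × (S → K)) (hx : LinearIndependent K x)
    (hK : ∀ k, x k ∈ K1)
    (h : ∀ r (v : Fin r → V), LinearIndependent K v → (∀ i, (v i, (0 : S → K)) ∈ K1) → r ≤ a) :
    Fintype.card κ ≤ a + Fintype.card S := by
  classical
  let T : (κ → K) →ₗ[K] (S → K) := Fintype.linearCombination K (fun k => (x k).2)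
  have hT : ∀ c, T c = ∑ k, c k • (x k).2 := fun c => Fintype.linearCombination_apply K _ c
  have h1 := LinearMap.finrank_range_add_finrank_ker T
  have h2 : finrank K (LinearMap.range T) ≤ Fintype.card S := by
    have := Submodule.finrank_le (LinearMap.range T)
    rwa [Module.finrank_fintype_fun_eq_card] at this
  rw [Module.finrank_fintype_fun_eq_card] at h1
  let e := Module.finBasis K (LinearMap.ker T)
  have h3 : ∀ c : LinearMap.ker T, ∑ k, (c : κ → K) k • x k =
      (∑ k, (c : κ → K) k • (x k).1, 0) := by
    intro c
    refine Prod.ext ?_ ?_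
    · rw [Prod.fst_sum]
      rfl
    · rw [Prod.snd_sum]
      have := c.2
      rw [LinearMap.mem_ker, hT] at this
      exact this
  have h4 : finrank K (LinearMap.ker T) ≤ a := by
    refine h _ (fun i => ∑ k, (e i : κ → K) k • (x k).1) ?_ ?_
    · rw [Fintype.linearIndependent_iff]
      intro p hp
      have h5 : ((∑ i, p i • e i : LinearMap.ker T) : κ → K) = 0 := by
        have h6 := h3 (∑ i, p i • e i)
        have h7 : ∑ k, ((∑ i, p i • e i : LinearMap.ker T) : κ → K) k • (x k).1 = 0 := by
          rw [← hp]
          simp only [Submodule.coe_sum, Submodule.coe_smul, Finset.sum_apply, Pi.smul_apply,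
            smul_eq_mul, Finset.sum_smul, Finset.smul_sum, mul_smul]
          rw [Finset.sum_comm]
        rw [h7] at h6
        funext k
        exact (Fintype.linearIndependent_iff.1 hx) _ h6 k
      have h6 : ∑ i, p i • e i = 0 := Subtype.ext h5
      exact (Fintype.linearIndependent_iff.1 e.linearIndependent) p h6
    · intro i
      rw [← h3 (e i)]
      exact Submodule.sum_mem _ fun k _ => K1.smul_mem _ (hK k)
  omega

/-- vectors with independent images together with independent vectors of the kernel -/
theorem li_sum {K E P κ κ' : Type*} [Field K] [AddCommGroup E] [Module K E] [AddCommGroup P]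
    [Module K P] [Fintype κ] [Fintype κ'] (Ψ : E →ₗ[K] P) (e : κ → E)
    (he : LinearIndependent K fun k => Ψ (e k)) (s : κ' → E) (hs : LinearIndependent K s)
    (hs0 : ∀ i, Ψ (s i) = 0) : LinearIndependent K (Sum.elim e s) := by
  rw [Fintype.linearIndependent_iff]
  intro p hp
  rw [Fintype.sum_sum_type] at hp
  simp only [Sum.elim_inl, Sum.elim_inr] at hp
  have h1 := congrArg Ψ hp
  rw [map_add, map_sum, map_sum, map_zero] at h1
  simp only [map_smul, hs0, smul_zero, Finset.sum_const_zero, add_zero] at h1
  have h2 := (Fintype.linearIndependent_iff.1 he) _ h1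
  have h3 : ∑ i, p (Sum.inr i) • s i = 0 := by
    rw [← hp]
    simp only [h2, zero_smul, Finset.sum_const_zero, zero_add]
  have h4 := (Fintype.linearIndependent_iff.1 hs) _ h3
  rintro (k | i)
  · exact h2 k
  · exact h4 i

end Pool.Agent.L5helper3.FewForms
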