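import Mathlib

/-!
# Homogeneous polynomials and their vectors of coefficients
-/

set_option autoImplicit false

namespace Pool.Agent.L5helper3.FewForms

open MvPolynomial

/-- the exponent of a multiset -/
noncomputable def ex {n D : ℕ} (s : Sym (Fin n) D) : Fin n →₀ ℕ :=
  Multiset.toFinsupp (s : Multiset (Fin n))

theorem ex_injective {n D : ℕ} : Function.Injective (ex (n := n) (D := D)) := by
  intro s t h
  have h1 := Multiset.toFinsupp.injective h
  exact Subtype.ext h1

theorem ex_degree {n D : ℕ} (s : Sym (Fin n) D) : (ex s).degree = D := by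
  have h1 : (ex s).degree = Multiset.card (s : Multiset (Fin n)) := by
    rw [ex, Finsupp.degree_eq_sum]
    simp only [Multiset.toFinsupp_apply]
    exact Multiset.sum_count_eq_card (fun a _ => Finset.mem_univ a)
  rw [h1]
  exact s.2

theorem exists_ex {n D : ℕ} (t : Fin n →₀ ℕ) (ht : t.degree = D) :
    ∃ s : Sym (Fin n) D, ex s = t := by
  refine ⟨⟨Finsupp.toMultiset t, ?_⟩, ?_⟩
  · rw [Finsupp.card_toMultiset, ← ht, Finsupp.degree_eq_sum, Finsupp.sum_fintype]
    · rfl
    · intro i
      rfl
  · exact Finsupp.toMultiset_toFinsupp t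

variable {K : Type*} [Field K]

/-- the polynomial with given coefficients -/
noncomputable def mk (n D : ℕ) : (Sym (Fin n) D → K) →ₗ[K] MvPolynomial (Fin n) K where
  toFun v := ∑ s, monomial (ex s) (v s)
  map_add' v w := by
    simp only [Pi.add_apply, map_add, Finset.sum_add_distrib]
  map_smul' c v := by
    simp only [Pi.smul_apply, RingHom.id_apply, Finset.smul_sum, smul_monomial]

theorem mk_apply {n D : ℕ} (v : Sym (Fin n) D → K) : mk n D v = ∑ s, monomial (ex s) (v s) := rfl

theorem coeff_mk {n D : ℕ} (v : Sym (Fin n) D → K) (s : Sym (Fin n) D) :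
    coeff (ex s) (mk n D v) = v s := by
  classical
  rw [mk_apply, coeff_sum, Finset.sum_eq_single s]
  · rw [coeff_monomial, if_pos rfl]
  · intro t _ ht
    rw [coeff_monomial, if_neg fun h => ht (ex_injective h)]
  · intro h; exact absurd (Finset.mem_univ s) h

theorem mk_homogeneous {n D : ℕ} (v : Sym (Fin n) D → K) : (mk n D v).IsHomogeneous D := by
  rw [mk_apply]
  exact IsHomogeneous.sum _ _ _ fun s _ => isHomogeneous_monomial _ (ex_degree s)

theorem mk_coeff {n D : ℕ} {f : MvPolynomial (Fin n) K} (hf : f.IsHomogeneous D) :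
    mk n D (fun s => coeff (ex s) f) = f := by
  classical
  ext t
  by_cases ht : t.degree = D
  · obtain ⟨s, rfl⟩ := exists_ex t ht
    rw [coeff_mk]
  · rw [hf.coeff_eq_zero ht, (mk_homogeneous _).coeff_eq_zero ht]

theorem mk_injective {n D : ℕ} : Function.Injective (mk (K := K) n D) := by
  intro v w h
  funext s
  rw [← coeff_mk v s, ← coeff_mk w s, h]

/-- a linear form -/
noncomputable def lin {n : ℕ} : (Fin n → K) →ₗ[K] MvPolynomial (Fin n) K where
  toFun b := ∑ j, C (b j) * X j
  map_add' v w := by
    simp only [Pi.add_apply, map_add, add_mul, Finset.sum_add_distrib]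
  map_smul' c v := by
    simp only [Pi.smul_apply, RingHom.id_apply, Finset.smul_sum, smul_eq_mul, map_mul,
      smul_eq_C_mul, mul_assoc]

theorem lin_apply {n : ℕ} (b : Fin n → K) : lin b = ∑ j, C (b j) * X j := rfl

theorem eval_lin {n : ℕ} (b : Fin n → K) (z : Fin n → K) : eval z (lin b) = ∑ j, b j * z j := by
  rw [lin_apply, map_sum]
  simp only [map_mul, eval_C, eval_X]

theorem lin_of_homogeneous {n : ℕ} {u : MvPolynomial (Fin n) K} (hu : u.IsHomogeneous 1) :
    ∃ b : Fin n → K, u = lin b := by
  classical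
  refine ⟨fun j => coeff (Finsupp.single j 1) u, ?_⟩
  have h1 : (lin fun j => coeff (Finsupp.single j 1) u).IsHomogeneous 1 := by
    rw [lin_apply]
    refine IsHomogeneous.sum _ _ _ fun j _ => ?_
    have := (isHomogeneous_C (Fin n) (coeff (Finsupp.single j 1) u)).mul
      (isHomogeneous_X K j)
    rwa [zero_add] at this
  ext t
  by_cases ht : t.degree = 1
  · obtain ⟨j, rfl⟩ : ∃ j, t = Finsupp.single j 1 := by
      obtain ⟨s, rfl⟩ := exists_ex t ht
      obtain ⟨j, hj⟩ := Multiset.card_eq_one.1 s.2
      refine ⟨j, ?_⟩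
      rw [ex]
      change Multiset.toFinsupp s.1 = _
      rw [hj, Multiset.toFinsupp_singleton]
    rw [lin_apply, coeff_sum, Finset.sum_eq_single j]
    · rw [coeff_C_mul, coeff_X, if_pos rfl, mul_one]
    · intro i _ hi
      rw [coeff_C_mul, coeff_X, if_neg, mul_zero]
      intro h
      exact hi (Finsupp.single_left_injective one_ne_zero h)
    · intro h; exact absurd (Finset.mem_univ j) h
  · rw [hu.coeff_eq_zero ht, h1.coeff_eq_zero ht]

/-- a homogeneous polynomial is determined by its values on a grid -/
theorem eq_of_grid [CharZero K] {n D : ℕ} {f g : MvPolynomial (Fin n) K} (hf : f.totalDegree ≤ D)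
    (hg : g.totalDegree ≤ D)
    (h : ∀ z : Fin n → Fin (D + 1), eval (fun j => ((z j : ℕ) : K)) f =
      eval (fun j => ((z j : ℕ) : K)) g) : f = g := by
  classical
  rw [← sub_eq_zero]
  refine MvPolynomial.eq_zero_of_eval_zero_at_prod_finset (f - g)
    (fun _ => Finset.univ.image fun i : Fin (D + 1) => ((i : ℕ) : K)) (fun i => ?_) (fun z hz => ?_)
  · rw [Finset.card_image_of_injective, Finset.card_univ, Fintype.card_fin]
    · have h1 := (degreeOf_le_totalDegree (f - g) i).trans (totalDegree_sub f g)
      have h2 : max f.totalDegree g.totalDegree ≤ D := max_le hf hg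
      omega
    · intro i j hij
      have : ((i : ℕ) : K) = ((j : ℕ) : K) := hij
      exact Fin.ext (by exact_mod_cast this)
  · have h1 : ∀ i, ∃ j : Fin (D + 1), ((j : ℕ) : K) = z i := by
      intro i
      have := hz i
      rw [Finset.mem_image] at this
      obtain ⟨j, -, hj⟩ := this
      exact ⟨j, hj⟩
    choose w hw using h1
    have h2 : z = fun j => ((w j : ℕ) : K) := by
      funext j
      rw [hw]
    rw [h2, map_sub, h w, sub_self]

end Pool.Agent.L5helper3.FewForms
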