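import Pool.Agent.L5helper3.FewForms.Fin1

/-!
# Quadratic relations of small rank
-/

set_option autoImplicit false

namespace Pool.Agent.L5helper3.FewForms

open Filter Module MvPolynomial Pool.Agent.TH519.GL Pool.Agent.TH519.FE Pool.Agent.TH519.HS
open Pool.Agent.H301R2.SSE (QB mem_QB Lt Lt_log)

/-- a symmetric matrix of rank `r` is a form in `r` linear forms -/
theorem exists_factor {K : Type*} [Field K] {N : ℕ} (S : Matrix (Fin N) (Fin N) K)
    (hS : S.IsSymm) :
    ∃ (B : Matrix (Fin S.rank) (Fin N) K) (T : Matrix (Fin S.rank) (Fin S.rank) K),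
      LinearIndependent K B ∧ S = B.transpose * T * B := by
  classical
  -- a basis of the row space
  have hr : finrank K (Submodule.span K (Set.range S)) = S.rank := by
    rw [Matrix.rank_eq_finrank_span_row]
    rfl
  let e := Module.finBasisOfFinrankEq K (Submodule.span K (Set.range S)) hr
  let B : Matrix (Fin S.rank) (Fin N) K := fun a => (e a : Fin N → K)
  have hB : LinearIndependent K B := by
    have := e.linearIndependent.map' (Submodule.span K (Set.range S)).subtype
      (Submodule.ker_subtype _)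
    exact this
  -- the coordinates of the rows
  let C : Matrix (Fin N) (Fin S.rank) K := fun i a =>
    e.repr ⟨S i, Submodule.subset_span ⟨i, rfl⟩⟩ a
  have hC : S = C * B := by
    ext i j
    have h1 := congrArg (fun x : Submodule.span K (Set.range S) => (x : Fin N → K) j)
      (e.sum_repr ⟨S i, Submodule.subset_span ⟨i, rfl⟩⟩)
    simp only [Submodule.coe_sum, Submodule.coe_smul, Finset.sum_apply, Pi.smul_apply,
      smul_eq_mul] at h1
    rw [Matrix.mul_apply]
    exact h1.symm
  -- a right inverse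
  obtain ⟨B', hB'⟩ : ∃ B' : Matrix (Fin N) (Fin S.rank) K, B * B' = 1 := by
    have h1 : Function.Injective (Matrix.vecMulLinear B) := by
      intro v w hvw
      have h2 : Matrix.vecMul (v - w) B = 0 := by
        rw [Matrix.sub_vecMul]
        exact sub_eq_zero.2 hvw
      have h3 : ∑ i, (v - w) i • B i = 0 := by
        funext j
        have := congrFun h2 j
        simpa [Matrix.vecMul, dotProduct, Finset.sum_apply] using this
      have h4 := Fintype.linearIndependent_iff.1 hB (v - w) h3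
      funext i
      exact sub_eq_zero.1 (h4 i)
    obtain ⟨g, hg⟩ := (Matrix.vecMulLinear B).exists_leftInverse_of_injective
      (LinearMap.ker_eq_bot.2 h1)
    refine ⟨fun j a => g (Pi.single j 1) a, ?_⟩
    ext a b
    have h2 := LinearMap.congr_fun hg (Pi.single a 1)
    rw [LinearMap.comp_apply, LinearMap.id_apply, Matrix.vecMulLinear_apply,
      Matrix.single_one_vecMul] at h2
    have h3 : B a = ∑ j, B a j • (Pi.single j (1 : K) : Fin N → K) := by
      funext j
      rw [Finset.sum_apply, Finset.sum_eq_single j]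
      · simp
      · intro i _ hi
        simp [Pi.single_eq_of_ne (Ne.symm hi)]
      · intro h; exact absurd (Finset.mem_univ j) h
    have h4 : g (B a) = ∑ j, B a j • g (Pi.single j 1) := by
      conv_lhs => rw [h3, map_sum]
      simp only [map_smul]
    have h5 : Matrix.row B a = B a := rfl
    rw [h5, h4] at h2
    have h6 := congrFun h2 b
    rw [Finset.sum_apply] at h6
    rw [Matrix.mul_apply, Matrix.one_apply]
    simp only [Pi.smul_apply, smul_eq_mul] at h6
    rw [h6, Pi.single_apply]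
    simp only [eq_comm]
  refine ⟨B, C.transpose * B', hB, ?_⟩
  have hT : S.transpose = B.transpose * C.transpose :=
    (congrArg Matrix.transpose hC).trans (Matrix.transpose_mul C B)
  have h1 : C = B.transpose * (C.transpose * B') := by
    calc C = C * (B * B') := by rw [hB', Matrix.mul_one]
      _ = (C * B) * B' := by rw [Matrix.mul_assoc]
      _ = S.transpose * B' := by rw [← hC, hS.eq]
      _ = (B.transpose * C.transpose) * B' := by rw [hT]
      _ = _ := by rw [Matrix.mul_assoc]
  rw [← h1]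
  exact hC

/-- the quadratic form of a matrix -/
noncomputable def quad {K : Type*} [Field K] {n : ℕ} (S : Matrix (Fin n) (Fin n) K) :
    MvPolynomial (Fin n) K :=
  ∑ i, ∑ j, C (S i j) * X i * X j

theorem quad_homogeneous {K : Type*} [Field K] {n : ℕ} (S : Matrix (Fin n) (Fin n) K) :
    (quad S).IsHomogeneous 2 := by
  refine IsHomogeneous.sum _ _ _ fun i _ => IsHomogeneous.sum _ _ _ fun j _ => ?_
  have h1 := ((isHomogeneous_C (Fin n) (S i j)).mul (isHomogeneous_X K i)).mul
    (isHomogeneous_X K j)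
  rwa [zero_add] at h1

/-- the matrix of a quadratic form -/
noncomputable def toMat (K : Type*) [Field K] (n : ℕ) :
    MvPolynomial (Fin n) K →ₗ[K] Matrix (Fin n) (Fin n) K where
  toFun f := fun i j => (1 / 2 : K) * constantCoeff (pderiv i (pderiv j f))
  map_add' f g := by
    ext i j
    simp only [map_add, mul_add, Matrix.add_apply]
  map_smul' c f := by
    ext i j
    change (1 / 2 : K) * constantCoeff (pderiv i (pderiv j (c • f))) =
      c * ((1 / 2 : K) * constantCoeff (pderiv i (pderiv j f)))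
    rw [Derivation.map_smul, Derivation.map_smul, smul_eq_C_mul, map_mul, constantCoeff_C]
    ring

theorem toMat_quad {K : Type*} [Field K] [CharZero K] {n : ℕ} (S : Matrix (Fin n) (Fin n) K)
    (hS : S.IsSymm) : toMat K n (quad S) = S := by
  classical
  ext i j
  have h1 : ∀ a b, constantCoeff (pderiv i (pderiv j (C (S a b) * X a * X b :
      MvPolynomial (Fin n) K))) =
      (if a = i ∧ b = j then S a b else 0) + (if a = j ∧ b = i then S a b else 0) := by
    intro a b
    simp only [pderiv_mul, pderiv_C, pderiv_X, map_add, map_mul, constantCoeff_C, zero_mul,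
      mul_zero, zero_add, add_zero, constantCoeff_X]
    by_cases hai : a = i <;> by_cases hbj : b = j <;> by_cases haj : a = j <;>
      by_cases hbi : b = i <;>
      simp [hai, hbj, haj, hbi, Pi.single_apply, eq_comm] <;> aesop
  change (1 / 2 : K) * constantCoeff (pderiv i (pderiv j (quad S))) = S i j
  rw [quad]
  simp only [map_sum]
  rw [Finset.sum_congr rfl fun a _ => Finset.sum_congr rfl fun b _ => h1 a b]
  simp only [Finset.sum_add_distrib, ite_and, Finset.sum_ite_eq', Finset.mem_univ, if_true,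
    Finset.sum_ite_irrel, Finset.sum_const_zero]
  rw [hS.apply i j]
  field_simp
  ring

/-- the relation given by a symmetric matrix -/
theorem quad_rel {N m : ℕ} (l : Fin N → ℂ) (hl : LinearIndependent QB l)
    (S : Matrix (Fin N) (Fin N) QB) (hS : S.IsSymm) (hm : S.rank ≤ m)
    (h0 : ∑ i, ∑ j, (S i j : ℂ) * l i * l j = 0) :
    ∃ m' ≤ m, ∃ (b : Fin m' → Fin N → QB) (F : MvPolynomial (Fin m') QB),
      F.IsHomogeneous (1 + 1) ∧ Good0 1 l b F ∧ quad S = sub b F := by
  classical
  obtain ⟨B, T, hB, hST⟩ := exists_factor S hS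
  have h1 : quad S = sub B (quad T) := by
    have h2 : ∀ i j, S i j = ∑ a, ∑ c, T a c * B a i * B c j := by
      intro i j
      conv_lhs => rw [hST]
      rw [Matrix.mul_apply]
      simp only [Matrix.mul_apply, Matrix.transpose_apply, Finset.sum_mul]
      rw [Finset.sum_comm]
      refine Finset.sum_congr rfl fun a _ => Finset.sum_congr rfl fun c _ => ?_
      ring
    rw [quad, quad, map_sum]
    simp only [map_sum, map_mul, sub, aeval_X, algHom_C]
    simp only [lin_apply, Finset.mul_sum, Finset.sum_mul, h2, map_sum, map_mul]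
    have h3 : ∀ a : QB, algebraMap QB (MvPolynomial (Fin N) QB) a = C a := fun a => rfl
    simp only [h3]
    have h4 : ∀ (f : Fin N → Fin N → Fin S.rank → Fin S.rank → MvPolynomial (Fin N) QB),
        ∑ i, ∑ j, ∑ a, ∑ c, f i j a c = ∑ a, ∑ c, ∑ j, ∑ i, f i j a c := by
      intro f
      calc ∑ i, ∑ j, ∑ a, ∑ c, f i j a c = ∑ j, ∑ i, ∑ a, ∑ c, f i j a c := Finset.sum_comm
        _ = ∑ j, ∑ a, ∑ i, ∑ c, f i j a c :=
            Finset.sum_congr rfl fun j _ => Finset.sum_comm
        _ = ∑ a, ∑ j, ∑ i, ∑ c, f i j a c := Finset.sum_comm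
        _ = ∑ a, ∑ j, ∑ c, ∑ i, f i j a c :=
            Finset.sum_congr rfl fun a _ => Finset.sum_congr rfl fun j _ => Finset.sum_comm
        _ = ∑ a, ∑ c, ∑ j, ∑ i, f i j a c :=
            Finset.sum_congr rfl fun a _ => Finset.sum_comm
    rw [h4]
    refine Finset.sum_congr rfl fun a _ => Finset.sum_congr rfl fun c _ =>
      Finset.sum_congr rfl fun j _ => Finset.sum_congr rfl fun i _ => ?_
    ring
  refine ⟨S.rank, hm, B, quad T, quad_homogeneous T, ⟨?_, ?_⟩, h1⟩
  · rw [← aeval_sub, ← h1, quad, ← h0]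
    simp only [map_sum, map_mul, aeval_X, algHom_C]
    rfl
  · intro G hG hG0
    obtain ⟨c, rfl⟩ := lin_of_homogeneous hG
    have h2 : cmb l (∑ i, c i • B i) = 0 := by
      rw [← hG0, aeval_lin, cmb, cmb]
      simp only [cmb, Finset.mul_sum, Finset.sum_apply, Pi.smul_apply, smul_eq_mul]
      rw [Finset.sum_comm]
      refine Finset.sum_congr rfl fun j _ => ?_
      have h3 : algebraMap QB ℂ (∑ i, c i * B i j) =
          ∑ i, algebraMap QB ℂ (c i) * algebraMap QB ℂ (B i j) := by
        rw [map_sum]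
        simp only [map_mul]
      change algebraMap QB ℂ (∑ i, c i * B i j) * l j =
        ∑ i, algebraMap QB ℂ (c i) * (algebraMap QB ℂ (B i j) * l j)
      rw [h3, Finset.sum_mul]
      refine Finset.sum_congr rfl fun i _ => ?_
      ring
    have h3 := cmb_eq_zero hl h2
    have h4 := Fintype.linearIndependent_iff.1 hB c h3
    have h5 : c = 0 := funext h4
    rw [h5, map_zero]

/-- **Dimension of the quadratic relations of rank at most `m`.** -/
theorem quad_dim {N m : ℕ} (l : Fin N → ℂ) (hl : LinearIndependent QB l)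
    (hl' : ∀ j, l j ∈ Lt) (φ : Fin (m * (m - 1) / 2 + 1) →
      (Matrix (Fin N) (Fin N) QB →ₗ[QB] QB)) :
    ∃ P : MvPolynomial (Fin (m * (m - 1) / 2 + 1)) QB, P ≠ 0 ∧
      ∀ S : Matrix (Fin N) (Fin N) QB, S.IsSymm → S.rank ≤ m →
        ∑ i, ∑ j, (S i j : ℂ) * l i * l j = 0 → eval (fun k => φ k S) P = 0 := by
  classical
  have hc : ∀ m' : ℕ, (m' + 1).choose (1 + 1) = m' * (m' - 1) / 2 + m' := by
    intro m'
    rw [Nat.choose_two_right]
    rcases Nat.eq_zero_or_pos m' with rfl | hm'
    · rfl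
    · obtain ⟨t, rfl⟩ : ∃ t, m' = t + 1 := ⟨m' - 1, by omega⟩
      simp only [Nat.add_sub_cancel]
      have : (t + 1 + 1) * (t + 1) = (t + 1) * t + (t + 1) * 2 := by ring
      rw [this, Nat.add_mul_div_right _ _ (by norm_num)]
  have h1 : ∀ m' : Fin (m + 1), ∃ P : MvPolynomial (Fin (m * (m - 1) / 2 + 1)) QB, P ≠ 0 ∧
      ∀ (b : Fin m' → Fin N → QB) (F : MvPolynomial (Fin m') QB), F.IsHomogeneous (1 + 1) →
        Good0 1 l b F → eval (fun k => (φ k ∘ₗ toMat QB N) (sub b F)) P = 0 := by
    intro m'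
    have h2 : ∀ m'' : Fin (m' + 1), Fintype.card (Sym (Fin m'') (1 + 1)) <
        (m * (m - 1) / 2 + 1) + m'' := by
      intro m''
      have h3 := choose_mono 1 m'' m (by omega)
      rw [card_sym]
      rw [hc m] at h3
      omega
    choose P hP1 hP2 using fun m'' : Fin (m' + 1) =>
      dim_exact le_rfl l hl hl' (h2 m'') (fun k => φ k ∘ₗ toMat QB N)
    refine ⟨∏ m'', P m'', Finset.prod_ne_zero_iff.2 fun m'' _ => hP1 m'', fun b F hF hG => ?_⟩
    obtain ⟨m'', hm'', b', F', h2, h3, h4⟩ := exists_essential l m' b F hF hG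
    rw [map_prod]
    refine Finset.prod_eq_zero (Finset.mem_univ (⟨m'', by omega⟩ : Fin (m' + 1))) ?_
    rw [← h4]
    exact hP2 ⟨m'', by omega⟩ b' F' h2 h3
  choose P hP1 hP2 using h1
  refine ⟨∏ m', P m', Finset.prod_ne_zero_iff.2 fun m' _ => hP1 m', fun S hS hm h0 => ?_⟩
  obtain ⟨m', hm', b, F, h2, h3, h4⟩ := quad_rel l hl S hS hm h0
  rw [map_prod]
  refine Finset.prod_eq_zero (Finset.mem_univ (⟨m', by omega⟩ : Fin (m + 1))) ?_
  have h5 := hP2 ⟨m', by omega⟩ b F h2 h3
  rw [← h4] at h5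
  simp only [LinearMap.comp_apply, toMat_quad S hS] at h5
  exact h5

/-- **Number of the quadratic relations of rank at most `m`.** -/
theorem quad_count {N m : ℕ} (l : Fin N → ℂ) (hl : LinearIndependent QB l)
    (hl' : ∀ j, l j ∈ Lt) :
    ∃ κ : ℕ, ∀ H : ℕ, 1 ≤ H →
      Set.ncard {A : Matrix (Fin N) (Fin N) ℤ | (∀ i j, |A i j| ≤ H) ∧ A.IsSymm ∧
        (A.map (algebraMap ℤ QB)).rank ≤ m ∧ ∑ i, ∑ j, (A i j : ℂ) * l i * l j = 0} ≤
      κ * H ^ (m * (m - 1) / 2) := by
  classical
  let toM : (Fin (N * N) → QB) →ₗ[QB] Matrix (Fin N) (Fin N) QB :=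
    LinearMap.pi fun i => LinearMap.pi fun j => LinearMap.proj (finProdFinEquiv (i, j))
  have htoM : ∀ x i j, toM x i j = x (finProdFinEquiv (i, j)) := fun x i j => rfl
  let fromM : Matrix (Fin N) (Fin N) QB →ₗ[QB] (Fin (N * N) → QB) :=
    LinearMap.pi fun k => LinearMap.proj (finProdFinEquiv.symm k).2 ∘ₗ
      LinearMap.proj (finProdFinEquiv.symm k).1
  have hfrom : ∀ x, fromM (toM x) = x := by
    intro x
    funext k
    change x (finProdFinEquiv ((finProdFinEquiv.symm k).1, (finProdFinEquiv.symm k).2)) = x k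
    rw [Prod.mk.eta, Equiv.apply_symm_apply]
  set S : Set (Fin (N * N) → QB) := {x | (toM x).IsSymm ∧ (toM x).rank ≤ m ∧
    ∑ i, ∑ j, (toM x i j : ℂ) * l i * l j = 0} with hS
  obtain ⟨κ, hκ⟩ := count (d := m * (m - 1) / 2) S (by
    intro φ
    obtain ⟨P, hP1, hP2⟩ := quad_dim (m := m) l hl hl' (fun k => (φ k) ∘ₗ fromM)
    refine ⟨P, hP1, ?_⟩
    rintro x ⟨h1, h2, h3⟩
    have h4 := hP2 (toM x) h1 h2 h3
    simp only [LinearMap.comp_apply, hfrom] at h4
    exact h4)
  refine ⟨κ, fun H hH => ?_⟩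
  set T := {A : Matrix (Fin N) (Fin N) ℤ | (∀ i j, |A i j| ≤ H) ∧ A.IsSymm ∧
        (A.map (algebraMap ℤ QB)).rank ≤ m ∧ ∑ i, ∑ j, (A i j : ℂ) * l i * l j = 0} with hT
  let Θ : Matrix (Fin N) (Fin N) ℤ → (Fin (N * N) → ℤ) :=
    fun A k => A (finProdFinEquiv.symm k).1 (finProdFinEquiv.symm k).2
  have hΘ : Function.Injective Θ := by
    intro A A' h
    ext i j
    have := congrFun h (finProdFinEquiv (i, j))
    simp only [Θ, Equiv.symm_apply_apply] at this
    exact this
  have hfin : (Θ '' T).Finite := by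
    have h1 : ((Fintype.piFinset fun _ : Fin (N * N) =>
      Finset.Icc (-(H : ℤ)) H : Finset _) : Set (Fin (N * N) → ℤ)).Finite :=
      Finset.finite_toSet _
    refine h1.subset ?_
    rintro _ ⟨A, hA, rfl⟩
    rw [Finset.mem_coe, Fintype.mem_piFinset]
    intro i
    rw [Finset.mem_Icc, ← abs_le]
    exact hA.1 _ _
  rw [← Set.InjOn.ncard_image hΘ.injOn, Set.ncard_eq_toFinset_card _ hfin]
  refine hκ H hH _ ?_
  intro a ha
  rw [Set.Finite.mem_toFinset] at ha
  obtain ⟨A, ⟨h1, h2, h3, h4⟩, rfl⟩ := ha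
  have h5 : toM (fun k => ((Θ A k : ℤ) : QB)) = A.map (algebraMap ℤ QB) := by
    ext i j
    rw [htoM]
    simp only [Θ, Equiv.symm_apply_apply]
    rfl
  refine ⟨fun j => h1 _ _, ?_⟩
  change (toM _).IsSymm ∧ (toM _).rank ≤ m ∧ ∑ i, ∑ j, (toM _ i j : ℂ) * l i * l j = 0
  rw [h5]
  refine ⟨?_, h3, ?_⟩
  · rw [Matrix.IsSymm, ← Matrix.transpose_map, h2.eq]
  · rw [← h4]
    refine Finset.sum_congr rfl fun i _ => Finset.sum_congr rfl fun j _ => ?_
    congr 2

end Pool.Agent.L5helper3.FewForms
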