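import Pool.Agent.L5helper3.FewForms.Dim

/-!
# Reduction to essential polynomials
-/

set_option autoImplicit false

namespace Pool.Agent.L5helper3.FewForms

open Filter Module MvPolynomial Pool.Agent.TH519.GL Pool.Agent.TH519.FE Pool.Agent.TH519.HS
open Pool.Agent.H301R2.SSE (QB mem_QB Lt Lt_log)

/-- the chain rule -/
theorem derivative_aeval {K R : Type*} [Field K] [CommRing R] [Algebra K R] {m : ℕ}
    (g : Fin m → Polynomial R) (F : MvPolynomial (Fin m) K) :
    Polynomial.derivative (aeval g F) =
      ∑ i, aeval g (pderiv i F) * Polynomial.derivative (g i) := by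
  classical
  induction F using MvPolynomial.induction_on with
  | C a =>
    simp only [algHom_C, pderiv_C, map_zero, zero_mul, Finset.sum_const_zero]
    rw [IsScalarTower.algebraMap_apply K R (Polynomial R)]
    exact Polynomial.derivative_C
  | add p q hp hq =>
    simp only [map_add, hp, hq, add_mul, Finset.sum_add_distrib]
  | mul_X p n hp =>
    rw [map_mul, aeval_X, Polynomial.derivative_mul, hp]
    simp only [pderiv_mul, map_add, map_mul, aeval_X, add_mul, Finset.sum_add_distrib,
      Finset.sum_mul]
    congr 1
    · refine Finset.sum_congr rfl fun i _ => ?_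
      ring
    · rw [Finset.sum_eq_single n]
      · rw [pderiv_X_self, map_one, mul_one]
      · intro i _ hi
        rw [pderiv_X_of_ne (Ne.symm hi), map_zero, mul_zero, zero_mul]
      · intro h; exact absurd (Finset.mem_univ n) h

/-- invariance under translation in a direction in which the derivative vanishes -/
theorem aeval_translate {K R : Type*} [Field K] [CharZero K] [CommRing R] [IsDomain R] [Algebra K R]
    {m : ℕ} (F : MvPolynomial (Fin m) K) (a : Fin m → K) (h : ∑ i, C (a i) * pderiv i F = 0)
    (w : Fin m → R) (t : R) :
    aeval (fun i => w i + t * algebraMap K R (a i)) F = aeval w F := by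
  classical
  haveI : CharZero R := charZero_of_injective_algebraMap (FaithfulSMul.algebraMap_injective K R)
  set g : Fin m → Polynomial R := fun i =>
    Polynomial.C (w i) + Polynomial.X * Polynomial.C (algebraMap K R (a i)) with hg
  have h1 : Polynomial.derivative (aeval g F) = 0 := by
    rw [derivative_aeval]
    have h2 := congrArg (aeval g) h
    rw [map_zero, map_sum] at h2
    rw [← h2]
    refine Finset.sum_congr rfl fun i _ => ?_
    rw [map_mul, algHom_C, hg]
    simp only [Polynomial.derivative_add, Polynomial.derivative_C, zero_add,
      Polynomial.derivative_mul, Polynomial.derivative_X, one_mul, mul_zero, add_zero]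
    rw [IsScalarTower.algebraMap_apply K R (Polynomial R), mul_comm]
    rfl
  have h2 := Polynomial.eq_C_of_derivative_eq_zero h1
  have h3 : ∀ s : R, Polynomial.eval s (aeval g F) =
      aeval (fun i => w i + s * algebraMap K R (a i)) F := by
    intro s
    have h4 : (Polynomial.aeval s : Polynomial R →ₐ[R] R).restrictScalars K (aeval g F) =
        aeval (fun i => w i + s * algebraMap K R (a i)) F := by
      rw [← AlgHom.comp_apply]
      congr 1
      apply MvPolynomial.algHom_ext
      intro i
      rw [AlgHom.comp_apply, aeval_X, aeval_X, hg]
      simp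
      exact mul_comm _ _
    rw [← h4]
    rfl
  have h5 : Polynomial.eval t (aeval g F) = Polynomial.eval 0 (aeval g F) := by
    rw [h2, Polynomial.eval_C, Polynomial.eval_C]
  rw [h3, h3] at h5
  rw [h5]
  congr 1
  congr 1
  funext i
  rw [zero_mul, add_zero]

/-- the condition without essentiality -/
def Good0 {N m : ℕ} (D : ℕ) (l : Fin N → ℂ) (b : Fin m → Fin N → QB)
    (F : MvPolynomial (Fin m) QB) : Prop :=
  aeval (fun i => cmb l (b i)) F = 0 ∧
    ∀ G : MvPolynomial (Fin m) QB, G.IsHomogeneous D → aeval (fun i => cmb l (b i)) G = 0 → G = 0

theorem cmb_lin {N : ℕ} (l : Fin N → ℂ) (u v : Fin N → QB) (t : QB) :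
    cmb l (u + t • v) = cmb l u + (t : ℂ) * cmb l v := by
  rw [cmb, cmb, cmb, Finset.mul_sum, ← Finset.sum_add_distrib]
  refine Finset.sum_congr rfl fun j _ => ?_
  have h : algebraMap QB ℂ ((u + t • v) j) = algebraMap QB ℂ (u j) +
      (t : ℂ) * algebraMap QB ℂ (v j) := rfl
  rw [h]
  ring

theorem exists_essential {N D : ℕ} (l : Fin N → ℂ) : ∀ (m : ℕ) (b : Fin m → Fin N → QB)
    (F : MvPolynomial (Fin m) QB), F.IsHomogeneous (D + 1) → Good0 D l b F →
    ∃ m' ≤ m, ∃ (b' : Fin m' → Fin N → QB) (F' : MvPolynomial (Fin m') QB),
      F'.IsHomogeneous (D + 1) ∧ Good D l b' F' ∧ sub b' F' = sub b F := by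
  classical
  intro m
  induction m with
  | zero =>
    intro b F hF hG
    exact ⟨0, le_rfl, b, F, hF, ⟨hG.1, fun a _ => Subsingleton.elim _ _, hG.2⟩, rfl⟩
  | succ m ih =>
    intro b F hF hG
    by_cases hE : Essential F
    · exact ⟨m + 1, le_rfl, b, F, hF, ⟨hG.1, hE, hG.2⟩, rfl⟩
    · unfold Essential at hE
      push Not at hE
      obtain ⟨a, ha, ha0⟩ := hE
      obtain ⟨i, hi⟩ := Function.ne_iff.1 ha0
      rw [Pi.zero_apply] at hi
      -- the polynomial at `X i = 0`
      set F' : MvPolynomial (Fin m) QB := aeval (i.insertNth 0 X) F with hF'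
      set b' : Fin m → Fin N → QB := fun j => b (i.succAbove j) +
        (-(a (i.succAbove j) / a i)) • b i with hb'
      have hF'h : F'.IsHomogeneous (D + 1) := by
        have h1 : ∀ j, ((i.insertNth 0 X : Fin (m + 1) → MvPolynomial (Fin m) QB) j).IsHomogeneous
            1 := by
          intro j
          rcases Fin.eq_self_or_eq_succAbove i j with rfl | ⟨j', rfl⟩
          · rw [Fin.insertNth_apply_same]
            exact isHomogeneous_zero _ _ _
          · rw [Fin.insertNth_apply_succAbove]
            exact isHomogeneous_X _ _
        have := hF.aeval (i.insertNth 0 X : Fin (m + 1) → MvPolynomial (Fin m) QB) h1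
        rwa [one_mul] at this
      have hcomp : ∀ (R : Type) [CommRing R] [Algebra QB R] (z : Fin m → R),
          aeval z F' = aeval (i.insertNth 0 z) F := by
        intro R _ _ z
        rw [hF', ← AlgHom.comp_apply]
        congr 1
        apply MvPolynomial.algHom_ext
        intro j
        rw [AlgHom.comp_apply, aeval_X, aeval_X]
        rcases Fin.eq_self_or_eq_succAbove i j with rfl | ⟨j', rfl⟩
        · rw [Fin.insertNth_apply_same, Fin.insertNth_apply_same, map_zero]
        · rw [Fin.insertNth_apply_succAbove, Fin.insertNth_apply_succAbove, aeval_X]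
      have htr : ∀ (R : Type) [CommRing R] [IsDomain R] [Algebra QB R] (y : Fin (m + 1) → R),
          aeval (fun j => y (i.succAbove j) +
            algebraMap QB R (-(a (i.succAbove j) / a i)) * y i) F' = aeval y F := by
        intro R _ _ _ y
        rw [hcomp, ← aeval_translate F a ha y (-(algebraMap QB R (a i)⁻¹ * y i))]
        congr 1
        congr 1
        funext j
        rcases Fin.eq_self_or_eq_succAbove i j with rfl | ⟨j', rfl⟩
        · rw [Fin.insertNth_apply_same]
          have h1 : algebraMap QB R (a j)⁻¹ * algebraMap QB R (a j) = 1 := by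
            rw [← map_mul, inv_mul_cancel₀ hi, map_one]
          linear_combination (y j) * h1
        · rw [Fin.insertNth_apply_succAbove, map_neg, div_eq_mul_inv, map_mul]
          ring
      obtain ⟨m', hm', b'', F'', h1, h2, h3⟩ := ih b' F' hF'h (by
        constructor
        · have h1 := htr ℂ (fun i => cmb l (b i))
          rw [hG.1] at h1
          rw [← h1]
          congr 1
          congr 1
          funext j
          exact cmb_lin l (b (i.succAbove j)) (b i) (-(a (i.succAbove j) / a i))
        · intro G hGh hG0
          -- the form `G` in all variables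
          set G1 : MvPolynomial (Fin (m + 1)) QB := aeval (fun j => X (i.succAbove j) +
            C (-(a (i.succAbove j) / a i)) * X i) G with hG1
          have h1 : G1.IsHomogeneous D := by
            have h4 : ∀ j, (X (i.succAbove j) +
                C (-(a (i.succAbove j) / a i)) * X i :
                MvPolynomial (Fin (m + 1)) QB).IsHomogeneous 1 := by
              intro j
              refine (isHomogeneous_X _ _).add ?_
              have := (isHomogeneous_C (Fin (m + 1)) (-(a (i.succAbove j) / a i))).mul
                (isHomogeneous_X QB i)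
              rwa [zero_add] at this
            have := hGh.aeval (fun j => (X (i.succAbove j) +
              C (-(a (i.succAbove j) / a i)) * X i : MvPolynomial (Fin (m + 1)) QB)) h4
            rwa [one_mul] at this
          have h2 : aeval (fun i => cmb l (b i)) G1 = 0 := by
            rw [← hG0, hG1, ← AlgHom.comp_apply]
            congr 1
            apply MvPolynomial.algHom_ext
            intro j
            rw [AlgHom.comp_apply, aeval_X, aeval_X, map_add, map_mul, aeval_X, aeval_X, algHom_C]
            exact (cmb_lin l (b (i.succAbove j)) (b i) (-(a (i.succAbove j) / a i))).symm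
          have h3 := hG.2 G1 h1 h2
          have h4 := congrArg (aeval (i.insertNth 0 X : Fin (m + 1) → MvPolynomial (Fin m) QB)) h3
          rw [map_zero, hG1, ← AlgHom.comp_apply] at h4
          rw [← h4]
          symm
          have h5 : (aeval (i.insertNth 0 X : Fin (m + 1) → MvPolynomial (Fin m) QB)).comp
              (aeval (fun j => (X (i.succAbove j) + C (-(a (i.succAbove j) / a i)) * X i :
                MvPolynomial (Fin (m + 1)) QB))) = AlgHom.id QB _ := by
            apply MvPolynomial.algHom_ext
            intro j
            rw [AlgHom.comp_apply, aeval_X, map_add, map_mul, aeval_X, aeval_X,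
              Fin.insertNth_apply_same, Fin.insertNth_apply_succAbove, mul_zero, add_zero]
            rfl
          rw [h5]
          rfl)
      refine ⟨m', by omega, b'', F'', h1, h2, ?_⟩
      rw [h3]
      have h4 := htr (MvPolynomial (Fin N) QB) (fun i => lin (b i))
      rw [sub, sub, ← h4]
      congr 1
      congr 1
      funext j
      rw [hb']
      simp only [map_add, map_smul, smul_eq_C_mul]
      rfl

end Pool.Agent.L5helper3.FewForms
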