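import Pool.Agent.TH519.HS.Log2
import Pool.Agent.L5helper3.FewForms.Mk
import Pool.Agent.L5helper3.FewForms.LA

/-!
# Tangent vectors to the variety of the relations which involve few linear forms
-/

set_option autoImplicit false

namespace Pool.Agent.L5helper3.FewForms

open Filter Module MvPolynomial Pool.Agent.TH519.GL Pool.Agent.TH519.FE Pool.Agent.TH519.HS
open Pool.Agent.H301R2.SSE (QB mem_QB Lt Lt_log)

theorem aeval_lin {N : ℕ} (l : Fin N → ℂ) (b : Fin N → QB) : aeval l (lin b) = cmb l b := by
  rw [lin_apply, map_sum, cmb]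
  refine Finset.sum_congr rfl fun j _ => ?_
  rw [map_mul, aeval_X, aeval_C]

/-- the value at a combination of linear forms -/
noncomputable def sub {N m : ℕ} (b : Fin m → Fin N → QB) :
    MvPolynomial (Fin m) QB →ₐ[QB] MvPolynomial (Fin N) QB :=
  aeval (fun i => lin (b i))

theorem aeval_sub {N m : ℕ} (l : Fin N → ℂ) (b : Fin m → Fin N → QB)
    (F : MvPolynomial (Fin m) QB) :
    aeval l (sub b F) = aeval (fun i => cmb l (b i)) F := by
  have h : (aeval l).comp (sub b) = aeval (fun i => cmb l (b i)) := by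
    apply MvPolynomial.algHom_ext
    intro i
    rw [AlgHom.comp_apply, sub, aeval_X, aeval_X, aeval_lin]
  rw [← h, AlgHom.comp_apply]

theorem lin_homogeneous {N : ℕ} (b : Fin N → QB) : (lin b).IsHomogeneous 1 := by
  rw [lin_apply]
  refine IsHomogeneous.sum _ _ _ fun j _ => ?_
  have := (isHomogeneous_C (Fin N) (b j)).mul (isHomogeneous_X QB j)
  rwa [zero_add] at this

theorem sub_homogeneous {N m D : ℕ} (b : Fin m → Fin N → QB) {F : MvPolynomial (Fin m) QB}
    (hF : F.IsHomogeneous D) : (sub b F).IsHomogeneous D := by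
  have := hF.aeval (fun i => lin (b i)) (fun i => lin_homogeneous (b i))
  rwa [one_mul] at this

/-- the derivative of the map which sends linear forms and a polynomial to the composition -/
noncomputable def Psi {N m D : ℕ} (b : Fin m → Fin N → QB) (F : MvPolynomial (Fin m) QB) :
    ((Fin m → Fin N → QB) × (Sym (Fin m) D → QB)) →ₗ[QB] MvPolynomial (Fin N) QB :=
  (∑ i, (LinearMap.mulLeft QB (sub b (pderiv i F))) ∘ₗ lin ∘ₗ (LinearMap.proj i) ∘ₗ
    (LinearMap.fst QB (Fin m → Fin N → QB) (Sym (Fin m) D → QB))) +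
  (sub b).toLinearMap ∘ₗ (mk m D) ∘ₗ
    (LinearMap.snd QB (Fin m → Fin N → QB) (Sym (Fin m) D → QB))

theorem Psi_apply {N m D : ℕ} (b : Fin m → Fin N → QB) (F : MvPolynomial (Fin m) QB)
    (p : (Fin m → Fin N → QB) × (Sym (Fin m) D → QB)) :
    Psi b F p = ∑ i, sub b (pderiv i F) * lin (p.1 i) + sub b (mk m D p.2) := by
  simp only [Psi, LinearMap.add_apply, LinearMap.sum_apply, LinearMap.comp_apply,
    LinearMap.mulLeft_apply, LinearMap.proj_apply, LinearMap.fst_apply, LinearMap.snd_apply,
    AlgHom.toLinearMap_apply]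

theorem aeval_Psi {N m D : ℕ} (l : Fin N → ℂ) (b : Fin m → Fin N → QB)
    (F : MvPolynomial (Fin m) QB) (p : (Fin m → Fin N → QB) × (Sym (Fin m) D → QB)) :
    aeval l (Psi b F p) = ∑ i, aeval (fun i => cmb l (b i)) (pderiv i F) * cmb l (p.1 i) +
      aeval (fun i => cmb l (b i)) (mk m D p.2) := by
  rw [Psi_apply, map_add, map_sum, aeval_sub]
  simp only [map_mul, aeval_sub, aeval_lin]

theorem Psi_homogeneous {N m D : ℕ} (b : Fin m → Fin N → QB) {F : MvPolynomial (Fin m) QB}
    (hF : F.IsHomogeneous (D + 1))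
    (p : (Fin m → Fin N → QB) × (Sym (Fin m) (D + 1) → QB)) :
    (Psi b F p).IsHomogeneous (D + 1) := by
  rw [Psi_apply]
  refine IsHomogeneous.add (IsHomogeneous.sum _ _ _ fun i _ => ?_)
    (sub_homogeneous b (mk_homogeneous _))
  have h1 : (pderiv i F).IsHomogeneous D := by
    have := hF.pderiv (i := i)
    rwa [Nat.add_sub_cancel] at this
  exact (sub_homogeneous b h1).mul (lin_homogeneous _)

/-- the kernel of the evaluation is small -/
theorem kernel_le {N m D : ℕ} (l : Fin N → ℂ) (hl : LinearIndependent QB l)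
    (hl' : ∀ j, l j ∈ Lt) (F : MvPolynomial (Fin m) QB) (b : Fin m → Fin N → QB)
    (hF : LinearIndependent QB fun i => aeval (fun i => cmb l (b i)) (pderiv i F))
    (r : ℕ) (v : Fin r → Fin m → Fin N → QB) (hv : LinearIndependent QB v)
    (h0 : ∀ k, aeval l (Psi (D := D) b F (v k, 0)) = 0) :
    r ≤ m * (m - 1) := by
  classical
  refine Pool.Agent.W254.HP.hyperplane m _
    (fun i => aeval (fun i => cmb l (b i)) (pderiv i F))
    (fun i k => cmb l (v k i)) hF (fun i k => cmb_mem_Lt' hl' _) (fun k => ?_) ?_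
  · have := h0 k
    rw [aeval_Psi] at this
    simp only [map_zero, add_zero] at this
    exact this
  · rw [Fintype.linearIndependent_iff]
    intro p hp
    have h5 : ∀ i, cmb l (fun j => ∑ k, p k * v k i j) = 0 := by
      intro i
      rw [← cmb_sum]
      have := congrFun hp i
      rw [Finset.sum_apply] at this
      simp only [Pi.smul_apply, Algebra.smul_def] at this
      exact this
    have h6 : ∑ k, p k • v k = 0 := by
      funext i j
      have h7 := congrFun (cmb_eq_zero hl (h5 i)) j
      rw [Finset.sum_apply, Finset.sum_apply]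
      exact h7
    exact fun k => (Fintype.linearIndependent_iff.1 hv) p h6 k

/-- the vectors of the kernel of the derivative -/
noncomputable def sker {N m D : ℕ} (F : MvPolynomial (Fin m) QB) (b : Fin m → Fin N → QB)
    (i s : Fin m) : (Fin m → Fin N → QB) × (Sym (Fin m) D → QB) :=
  (Pi.single i (b s), - fun t => coeff (ex t) (pderiv i F * X s))

theorem Psi_sker {N m D : ℕ} {F : MvPolynomial (Fin m) QB} (hF : F.IsHomogeneous (D + 1))
    (b : Fin m → Fin N → QB) (i s : Fin m) : Psi b F (sker (D := D + 1) F b i s) = 0 := by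
  classical
  have h0 : (pderiv i F * X s).IsHomogeneous (D + 1) := by
    have := hF.pderiv (i := i)
    rw [Nat.add_sub_cancel] at this
    exact this.mul (isHomogeneous_X _ _)
  rw [Psi_apply]
  have h1 : ∑ i', sub b (pderiv i' F) * lin ((sker (D := D + 1) F b i s).1 i') =
      sub b (pderiv i F) * lin (b s) := by
    rw [Finset.sum_eq_single i]
    · have : (sker (D := D + 1) F b i s).1 i = b s := Pi.single_eq_same _ _
      rw [this]
    · intro j _ hj
      have : (sker (D := D + 1) F b i s).1 j = 0 := Pi.single_eq_of_ne hj _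
      rw [this, map_zero, mul_zero]
    · intro h
      exact absurd (Finset.mem_univ _) h
  have h2 : mk m (D + 1) (sker (D := D + 1) F b i s).2 = - (pderiv i F * X s) := by
    rw [sker, map_neg, mk_coeff h0]
  rw [h1, h2, map_neg, map_mul]
  have h3 : sub b (X s) = lin (b s) := by
    rw [sub, aeval_X]
  rw [h3, add_neg_cancel]

theorem sker_li {N m D : ℕ} (F : MvPolynomial (Fin m) QB) (b : Fin m → Fin N → QB)
    (hb : LinearIndependent QB b) :
    LinearIndependent QB (fun z : Fin m × Fin m => sker (D := D) F b z.1 z.2) := by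
  classical
  rw [Fintype.linearIndependent_iff]
  intro p hp
  have h1 : ∑ z : Fin m × Fin m, p z • (Pi.single z.1 (b z.2) : Fin m → Fin N → QB) = 0 := by
    have := congrArg Prod.fst hp
    rw [Prod.fst_sum] at this
    exact this
  rintro ⟨i, s⟩
  have h2 : ∑ s, p (i, s) • b s = 0 := by
    have h3 := congrFun h1 i
    rw [Finset.sum_apply, Fintype.sum_prod_type, Finset.sum_eq_single i] at h3
    · simpa only [Pi.smul_apply, Pi.single_eq_same, Pi.zero_apply] using h3
    · intro j _ hj
      refine Finset.sum_eq_zero fun s _ => ?_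
      rw [Pi.smul_apply, Pi.single_eq_of_ne (Ne.symm hj), smul_zero]
    · intro h
      exact absurd (Finset.mem_univ _) h
  exact (Fintype.linearIndependent_iff.1 hb) _ h2 s

/-- **The tangent space.** -/
theorem tangent {N m D q : ℕ} (l : Fin N → ℂ) (hl : LinearIndependent QB l)
    (hl' : ∀ j, l j ∈ Lt) (F : MvPolynomial (Fin m) QB) (hF : F.IsHomogeneous (D + 1))
    (b : Fin m → Fin N → QB) (hb : LinearIndependent QB b)
    (hF' : LinearIndependent QB fun i => aeval (fun i => cmb l (b i)) (pderiv i F))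
    (f : Fin q → MvPolynomial (Fin N) QB) (hf : LinearIndependent QB f)
    (p : Fin q → (Fin m → Fin N → QB) × (Sym (Fin m) (D + 1) → QB))
    (hfp : ∀ k, f k = Psi b F (p k)) (hrel : ∀ k, aeval l (f k) = 0) :
    q + m ≤ Fintype.card (Sym (Fin m) (D + 1)) := by
  classical
  have h1 : LinearIndependent QB (Sum.elim p
      (fun z : Fin m × Fin m => sker (D := D + 1) F b z.1 z.2)) := by
    refine li_sum (Psi (D := D + 1) b F) p ?_ _ (sker_li F b hb) fun z => Psi_sker hF b z.1 z.2
    have : (fun k => Psi (D := D + 1) b F (p k)) = f := funext fun k => (hfp k).symm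
    rw [this]
    exact hf
  have h2 := core (a := m * (m - 1))
    (LinearMap.ker ((aeval l).toLinearMap ∘ₗ Psi (D := D + 1) b F)) _ h1 ?_ ?_
  · rw [Fintype.card_sum, Fintype.card_prod, Fintype.card_fin, Fintype.card_fin] at h2
    rcases Nat.eq_zero_or_pos m with rfl | hm
    · omega
    · obtain ⟨m', rfl⟩ : ∃ m', m = m' + 1 := ⟨m - 1, by omega⟩
      rw [Nat.add_sub_cancel] at h2
      nlinarith
  · rintro (k | z)
    · rw [Sum.elim_inl, LinearMap.mem_ker, LinearMap.comp_apply, ← hfp k]
      exact hrel k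
    · rw [Sum.elim_inr, LinearMap.mem_ker, LinearMap.comp_apply, Psi_sker hF, map_zero]
  · intro r v hv hv0
    refine kernel_le (D := D + 1) l hl hl' F b hF' r v hv fun k => ?_
    have := hv0 k
    rw [LinearMap.mem_ker, LinearMap.comp_apply] at this
    exact this

end Pool.Agent.L5helper3.FewForms
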